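import Mathlib

/-!
Continuation of an `m`-th root of a nonvanishing holomorphic function from a convex open set to a
connected open set that contains a given point.
-/

open Filter Topology Metric

namespace Pool.BK

namespace Exact

/-- A nonvanishing holomorphic function on a disc has an `m`-th root. -/
lemma exists_root_ball (m : ℕ) (hm : 0 < m) (f : ℂ → ℂ) (c : ℂ) (r : ℝ)
    (hf : DifferentiableOn ℂ f (ball c r)) (hf0 : ∀ s ∈ ball c r, f s ≠ 0) :
    ∃ g : ℂ → ℂ, DifferentiableOn ℂ g (ball c r) ∧ ∀ s ∈ ball c r, g s ^ m = f s := by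
  rcases le_or_gt r 0 with hr | hr
  · rw [ball_eq_empty.2 hr]
    exact ⟨f, differentiableOn_empty, fun s hs => absurd hs (Set.notMem_empty s)⟩
  have hc : c ∈ ball c r := mem_ball_self hr
  have hd : DifferentiableOn ℂ (deriv f) (ball c r) := hf.deriv isOpen_ball
  have hq : DifferentiableOn ℂ (fun s => deriv f s / f s) (ball c r) :=
    hd.div hf hf0
  obtain ⟨F, hF1, hF⟩ := (hq.isExactOn_ball).with_val_at c (Complex.log (f c))
  have hFd : DifferentiableOn ℂ F (ball c r) := fun s hs =>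
    (hF s hs).differentiableAt.differentiableWithinAt
  have hexp : ∀ s ∈ ball c r, Complex.exp (F s) = f s := by
    have hder : ∀ s ∈ ball c r, HasDerivAt (fun s => Complex.exp (-(F s)) * f s) 0 s := by
      intro s hs
      have h1 := (hF s hs).neg.cexp
      have h2 : HasDerivAt f (deriv f s) s :=
        (hf.differentiableAt (isOpen_ball.mem_nhds hs)).hasDerivAt
      have h3 := h1.mul h2
      refine h3.congr_deriv ?_
      have := hf0 s hs
      field_simp
      ring
    intro s hs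
    have h1 : Complex.exp (-(F s)) * f s = Complex.exp (-(F c)) * f c :=
      (convex_ball c r).is_const_of_fderivWithin_eq_zero (𝕜 := ℂ)
      (f := fun s => Complex.exp (-(F s)) * f s)
      (fun s hs => (hder s hs).differentiableAt.differentiableWithinAt) (fun s hs => by
        rw [fderivWithin_of_isOpen isOpen_ball hs]
        have := (hder s hs).hasFDerivAt.fderiv
        rw [this]
        ext
        simp) hs hc
    rw [hF1, Complex.exp_neg, Complex.exp_neg, Complex.exp_log (hf0 c hc),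
      inv_mul_cancel₀ (hf0 c hc)] at h1
    field_simp at h1
    exact h1.symm
  refine ⟨fun s => Complex.exp (F s / m), ?_, fun s hs => ?_⟩
  · exact (hFd.div_const _).cexp
  · rw [← Complex.exp_nat_mul, mul_div_cancel₀ _ (by exact_mod_cast hm.ne'), hexp s hs]

/-- Two `m`-th roots of a nonvanishing function differ by a constant. -/
lemma root_unique (m : ℕ) (hm : 0 < m) (f g r : ℂ → ℂ) (O : Set ℂ) (hO : IsPreconnected O)
    (hne : O.Nonempty) (hg : ContinuousOn g O) (hr : ContinuousOn r O) (hf0 : ∀ s ∈ O, f s ≠ 0)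
    (hgm : ∀ s ∈ O, g s ^ m = f s) (hrm : ∀ s ∈ O, r s ^ m = f s) :
    ∃ q : ℂ, q ^ m = 1 ∧ ∀ s ∈ O, g s = q * r s := by
  have hr0 : ∀ s ∈ O, r s ≠ 0 := fun s hs h => hf0 s hs (by rw [← hrm s hs, h, zero_pow hm.ne'])
  let T : Set ℂ := {q : ℂ | q ^ m = 1}
  have hTf : T.Finite := by
    have h1 : T ⊆ ((Polynomial.nthRoots m (1 : ℂ)).toFinset : Set ℂ) := by
      intro q hq
      rw [Finset.mem_coe, Multiset.mem_toFinset, Polynomial.mem_nthRoots hm]
      exact hq
    exact (Finset.finite_toSet _).subset h1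
  have hmaps : Set.MapsTo (fun s => g s / r s) O T := by
    intro s hs
    change (g s / r s) ^ m = 1
    rw [div_pow, hgm s hs, hrm s hs, div_self (hf0 s hs)]
  obtain ⟨x, hx⟩ := hne
  have hdisc : IsDiscrete T := hTf.isDiscrete
  refine ⟨g x / r x, hmaps hx, fun s hs => ?_⟩
  have h2 : g s / r s = g x / r x :=
    hO.constant_of_mapsTo hdisc (hg.div hr hr0) hmaps hs hx
  rw [← h2, div_mul_cancel₀ _ (hr0 s hs)]

/-- A chain of discs in `G` that leads from `H` to `w`. -/
def Chain (G H : Set ℂ) (n : ℕ) (w : ℂ) (K : ℕ → Set ℂ) : Prop :=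
  K 0 = H ∧ (∀ i, 0 < i → i ≤ n → ∃ c r, K i = ball c r ∧ ball c r ⊆ G) ∧
    (∀ i < n, (K i ∩ K (i + 1)).Nonempty) ∧ w ∈ K n

lemma exists_chain {G H : Set ℂ} (hG : IsOpen G) (hGc : IsPreconnected G) (hH : IsOpen H)
    (hHne : H.Nonempty) (hHG : H ⊆ G) (w : ℂ) (hw : w ∈ G) :
    ∃ n K, Chain G H n w K := by
  let R : Set ℂ := {w | ∃ n K, Chain G H n w K}
  have hRo : IsOpen R := by
    rw [isOpen_iff_mem_nhds]
    rintro y ⟨n, K, hK0, hK1, hK2, hy⟩
    have hKo : IsOpen (K n) := by
      rcases Nat.eq_zero_or_pos n with rfl | hn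
      · rw [hK0]; exact hH
      · obtain ⟨c, r, hcr, -⟩ := hK1 n hn le_rfl
        rw [hcr]; exact isOpen_ball
    filter_upwards [hKo.mem_nhds hy] with y' hy'
    exact ⟨n, K, hK0, hK1, hK2, hy'⟩
  have hGR : IsOpen (G \ R) := by
    rw [isOpen_iff_mem_nhds]
    rintro y ⟨hyG, hyR⟩
    obtain ⟨r, hr, hball⟩ := Metric.isOpen_iff.1 hG y hyG
    filter_upwards [ball_mem_nhds y hr] with y' hy'
    refine ⟨hball hy', ?_⟩
    rintro ⟨n, K, hK0, hK1, hK2, hKy⟩
    apply hyR
    refine ⟨n + 1, fun i => if i ≤ n then K i else ball y r, ?_, ?_, ?_, ?_⟩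
    · simp only [Nat.zero_le, if_true]; exact hK0
    · intro i hi hin
      rcases Nat.lt_or_ge n i with h | h
      · refine ⟨y, r, ?_, hball⟩
        simp only [if_neg (Nat.not_le.2 h)]
      · simp only [if_pos h]; exact hK1 i hi h
    · intro i hi
      rcases Nat.lt_or_ge i n with h | h
      · simp only [if_pos h.le, if_pos (Nat.succ_le_of_lt h)]
        exact hK2 i h
      · have hin : i = n := by omega
        subst hin
        simp only [le_refl, if_true, if_neg (Nat.not_succ_le_self i)]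
        exact ⟨y', hKy, hy'⟩
    · simp only [if_neg (Nat.not_succ_le_self n)]
      exact mem_ball_self hr
  have hsub : G ⊆ R := by
    refine IsPreconnected.subset_left_of_subset_union hRo hGR disjoint_sdiff_self_right ?_ ?_ hGc
    · intro y hy
      by_cases h : y ∈ R
      · exact Or.inl h
      · exact Or.inr ⟨hy, h⟩
    · obtain ⟨x, hx⟩ := hHne
      exact ⟨x, hHG hx, 0, fun _ => H, rfl, fun i hi hi' => absurd hi (by omega),
        fun i hi => absurd hi (by omega), hx⟩
  exact hsub hw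

/-- In a shortest chain only neighbours meet. -/
lemma exists_simple_chain {G H : Set ℂ} (hG : IsOpen G) (hGc : IsPreconnected G) (hH : IsOpen H)
    (hHne : H.Nonempty) (hHG : H ⊆ G) (w : ℂ) (hw : w ∈ G) :
    ∃ n K, Chain G H n w K ∧ ∀ i j, i + 2 ≤ j → j ≤ n → Disjoint (K i) (K j) := by
  classical
  have hex : ∃ n, ∃ K, Chain G H n w K := exists_chain hG hGc hH hHne hHG w hw
  obtain ⟨K, hK⟩ := Nat.find_spec hex
  refine ⟨Nat.find hex, K, hK, ?_⟩
  set n := Nat.find hex with hn
  intro i j hij hjn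
  rw [Set.disjoint_left]
  intro x hxi hxj
  obtain ⟨hK0, hK1, hK2, hKw⟩ := hK
  have hlt : n - (j - i - 1) < n := by omega
  refine Nat.find_min hex hlt ⟨fun l => if l ≤ i then K l else K (l + (j - i - 1)), ?_, ?_, ?_, ?_⟩
  · simp only [Nat.zero_le, if_true]; exact hK0
  · intro l hl hln
    by_cases h : l ≤ i
    · simp only [if_pos h]; exact hK1 l hl (by omega)
    · simp only [if_neg h]; exact hK1 _ (by omega) (by omega)
  · intro l hl
    rcases lt_trichotomy l i with h | h | h
    · simp only [if_pos h.le, if_pos (Nat.succ_le_of_lt h)]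
      exact hK2 l (by omega)
    · subst h
      simp only [le_refl, if_true, if_neg (Nat.not_succ_le_self l)]
      refine ⟨x, hxi, ?_⟩
      have : l + 1 + (j - l - 1) = j := by omega
      rw [this]
      exact hxj
    · simp only [if_neg (Nat.not_le.2 h), if_neg (Nat.not_le.2 (Nat.lt_succ_of_lt h))]
      have : l + 1 + (j - i - 1) = l + (j - i - 1) + 1 := by omega
      rw [this]
      exact hK2 _ (by omega)
  · have h1 : ¬ (n - (j - i - 1) ≤ i) := by omega
    simp only [if_neg h1]
    have : n - (j - i - 1) + (j - i - 1) = n := by omega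
    rw [this]
    exact hKw

/-- Continuation of a root. -/
theorem exists_root_domain (m : ℕ) (hm : 0 < m) {G H : Set ℂ} (hG : IsOpen G)
    (hGc : IsPreconnected G) (hH : IsOpen H) (hHc : Convex ℝ H) (hHne : H.Nonempty) (hHG : H ⊆ G)
    (f : ℂ → ℂ) (hf : DifferentiableOn ℂ f G) (hf0 : ∀ s ∈ G, f s ≠ 0) (z : ℂ → ℂ)
    (hz : DifferentiableOn ℂ z H) (hzm : ∀ s ∈ H, z s ^ m = f s) (w : ℂ) (hw : w ∈ G) :
    ∃ (W : Set ℂ) (g : ℂ → ℂ), IsOpen W ∧ IsPreconnected W ∧ H ⊆ W ∧ W ⊆ G ∧ w ∈ W ∧
      DifferentiableOn ℂ g W ∧ (∀ s ∈ W, g s ^ m = f s) ∧ ∀ s ∈ H, g s = z s := by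
  classical
  obtain ⟨n, K, ⟨hK0, hK1, hK2, hKw⟩, hdisj⟩ := exists_simple_chain hG hGc hH hHne hHG w hw
  have hKo : ∀ i, i ≤ n → IsOpen (K i) := by
    intro i hi
    rcases Nat.eq_zero_or_pos i with rfl | h
    · rw [hK0]; exact hH
    · obtain ⟨c, r, hcr, -⟩ := hK1 i h hi
      rw [hcr]; exact isOpen_ball
  have hKc : ∀ i, i ≤ n → Convex ℝ (K i) := by
    intro i hi
    rcases Nat.eq_zero_or_pos i with rfl | h
    · rw [hK0]; exact hHc
    · obtain ⟨c, r, hcr, -⟩ := hK1 i h hi
      rw [hcr]; exact convex_ball c r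
  have hKG : ∀ i, i ≤ n → K i ⊆ G := by
    intro i hi
    rcases Nat.eq_zero_or_pos i with rfl | h
    · rw [hK0]; exact hHG
    · obtain ⟨c, r, hcr, hsub⟩ := hK1 i h hi
      rw [hcr]; exact hsub
  have key : ∀ k, k ≤ n → ∃ (W : Set ℂ) (g : ℂ → ℂ), IsOpen W ∧ IsPreconnected W ∧ H ⊆ W ∧
      W ⊆ G ∧ K k ⊆ W ∧ (∀ s ∈ W, ∃ i ≤ k, s ∈ K i) ∧
      DifferentiableOn ℂ g W ∧ (∀ s ∈ W, g s ^ m = f s) ∧ ∀ s ∈ H, g s = z s := by
    intro k
    induction k with
    | zero =>
      intro _
      exact ⟨H, z, hH, hHc.isPreconnected, subset_rfl, hHG, by rw [hK0], fun s hs =>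
        ⟨0, le_rfl, by rw [hK0]; exact hs⟩, hz, hzm, fun _ _ => rfl⟩
    | succ k ih =>
      intro hk
      obtain ⟨W, g, hWo, hWc, hHW, hWG, hKW, hWK, hgd, hgm, hgz⟩ := ih (by omega)
      obtain ⟨c, r, hcr, hsub⟩ := hK1 (k + 1) (by omega) hk
      obtain ⟨ρ, hρd, hρm⟩ := exists_root_ball m hm f c r (hf.mono hsub)
        (fun s hs => hf0 s (hsub hs))
      have hoc : IsPreconnected (K k ∩ K (k + 1)) :=
        ((hKc k (by omega)).inter (hKc (k + 1) hk)).isPreconnected
      have hone : (K k ∩ K (k + 1)).Nonempty := hK2 k (by omega)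
      obtain ⟨q, hq, hgq⟩ := root_unique m hm f g ρ _ hoc hone
        (hgd.continuousOn.mono (Set.inter_subset_left.trans hKW))
        (hρd.continuousOn.mono (by rw [← hcr]; exact Set.inter_subset_right))
        (fun s hs => hf0 s (hKG k (by omega) hs.1)) (fun s hs => hgm s (hKW hs.1))
        (fun s hs => hρm s (by rw [← hcr]; exact hs.2))
      have hover : ∀ s ∈ W, s ∈ K (k + 1) → g s = q * ρ s := by
        intro s hs hs'
        obtain ⟨i, hi, hsi⟩ := hWK s hs
        rcases Nat.lt_or_ge i k with h | h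
        · exact absurd hs' (Set.disjoint_left.1 (hdisj i (k + 1) (by omega) hk) hsi)
        · have : i = k := le_antisymm hi h
          subst this
          exact hgq s ⟨hsi, hs'⟩
      let g' : ℂ → ℂ := fun s => if s ∈ W then g s else q * ρ s
      have hg'1 : ∀ s ∈ W, g' s = g s := fun s hs => if_pos hs
      have hg'2 : ∀ s ∈ K (k + 1), g' s = q * ρ s := by
        intro s hs
        by_cases h : s ∈ W
        · rw [hg'1 s h, hover s h hs]
        · exact if_neg h
      refine ⟨W ∪ K (k + 1), g', hWo.union (hKo _ hk), ?_, hHW.trans Set.subset_union_left,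
        Set.union_subset hWG (hKG _ hk), Set.subset_union_right, ?_, ?_, ?_, ?_⟩
      · obtain ⟨x, hx1, hx2⟩ := hone
        exact IsPreconnected.union x (hKW hx1) hx2 hWc (hKc _ hk).isPreconnected
      · rintro s (hs | hs)
        · obtain ⟨i, hi, hsi⟩ := hWK s hs
          exact ⟨i, by omega, hsi⟩
        · exact ⟨k + 1, le_rfl, hs⟩
      · rintro s (hs | hs)
        · have h1 : DifferentiableAt ℂ g s := hgd.differentiableAt (hWo.mem_nhds hs)
          refine (h1.congr_of_eventuallyEq ?_).differentiableWithinAt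
          filter_upwards [hWo.mem_nhds hs] with y hy using hg'1 y hy
        · have hs' : s ∈ ball c r := by rw [← hcr]; exact hs
          have h1 : DifferentiableAt ℂ (fun y => q * ρ y) s :=
            (hρd.differentiableAt (isOpen_ball.mem_nhds hs')).const_mul q
          refine (h1.congr_of_eventuallyEq ?_).differentiableWithinAt
          filter_upwards [(hKo _ hk).mem_nhds hs] with y hy using hg'2 y hy
      · rintro s (hs | hs)
        · rw [hg'1 s hs, hgm s hs]
        · rw [hg'2 s hs, mul_pow, hq, one_mul, hρm s (by rw [← hcr]; exact hs)]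
      · intro s hs
        rw [hg'1 s (hHW hs), hgz s hs]
  obtain ⟨W, g, hWo, hWc, hHW, hWG, hKW, -, hgd, hgm, hgz⟩ := key n le_rfl
  exact ⟨W, g, hWo, hWc, hHW, hWG, hKW hKw, hgd, hgm, hgz⟩

end Exact

end Pool.BK
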