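import Pool.Agent.Helper95.BK.Public

/-!
The order of vanishing formula for the L-function itself.
-/

open scoped Pointwise NumberField
open Polynomial IsDedekindDomain

namespace Pool.BK

section Fields

variable (L Ω : Type) [Field L] [NumberField L] [Field Ω] [Algebra L Ω]

/-- The assertion of the conjecture for `V`: the Euler polynomials are rational and independent of
`l`, the Euler product converges in a right half plane `σ < Re s`, it continues to a meromorphic
function on a connected open set that contains this half plane and the point `0`, and for every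
prime `p` the order at `0` is `dim H¹_f - dim H⁰`. -/
def ExactFormula (V : LSystem (Ω ≃ₐ[L] Ω))
    (B : ∀ (p : ℕ) [Fact p.Prime], PeriodData (Ω ≃ₐ[L] Ω) (𝓞 Ω) p) : Prop :=
  ∃ P : HeightOneSpectrum (𝓞 L) → ℚ[X], EulerFamily L Ω V P ∧
    ∃ (σ : ℝ) (U : Set ℂ) (Λ : ℂ → ℂ), IsOpen U ∧ IsConnected U ∧ {s : ℂ | σ < s.re} ⊆ U ∧
      (0 : ℂ) ∈ U ∧ MeromorphicOn Λ U ∧
      (∀ s : ℂ, σ < s.re → Λ s ≠ 0 ∧ HasProd (eulerFactor L P s) (Λ s)) ∧
      ∀ (p : ℕ) [Fact p.Prime], ∃ d : ℤ, SelmerDiff (V.rep p) (B p) d ∧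
        meromorphicOrderAt Λ 0 = (d : WithTop ℤ)

end Fields

end Pool.BK
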