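import Pool.Agent.BK.Converge

/-!
The Euler product is analytic in a right half plane.
-/

open scoped Pointwise NumberField
open Polynomial IsDedekindDomain Filter Topology

namespace Pool.BK

namespace Exact

lemma one_lt_absNorm {K : Type} [Field K] [NumberField K] (v : HeightOneSpectrum (𝓞 K)) :
    (1 : ℝ) < (v.asIdeal.absNorm : ℝ) := by
  have h0 : v.asIdeal.absNorm ≠ 0 := by
    rw [Ne, Ideal.absNorm_eq_zero_iff]; exact v.ne_bot
  have h1 : v.asIdeal.absNorm ≠ 1 := by
    rw [Ne, Ideal.absNorm_eq_one_iff]; exact v.isPrime.ne_top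
  exact_mod_cast (by omega : 1 < v.asIdeal.absNorm)

/-- The Euler polynomials have no small roots. -/
lemma root_large (K : Type) [Field K] [NumberField K] (P : HeightOneSpectrum (𝓞 K) → ℚ[X])
    (hd : ∀ v, (P v).coeff 0 = 1) (σ : ℝ)
    (hσ : ∀ s : ℂ, σ < s.re → ∃ z : ℂ, z ≠ 0 ∧ HasProd (eulerFactor K P s) z)
    (w : HeightOneSpectrum (𝓞 K)) (β : ℂ) (hβ : aeval β (P w) = 0) :
    (w.asIdeal.absNorm : ℝ) ^ (-σ) ≤ ‖β‖ := by
  by_contra hc
  push Not at hc
  have hpos := one_lt_absNorm w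
  have hlog : 0 < Real.log (w.asIdeal.absNorm : ℝ) := Real.log_pos hpos
  have hβ0 : β ≠ 0 := by
    rintro rfl
    have h1 := hd w
    rw [← coeff_zero_eq_aeval_zero', h1] at hβ
    simp at hβ
  have hβpos : 0 < ‖β‖ := norm_pos_iff.2 hβ0
  let s : ℂ := -(Complex.log β / Real.log (w.asIdeal.absNorm : ℝ))
  have hs : σ < s.re := by
    have h1 : s.re = -(Real.log ‖β‖ / Real.log (w.asIdeal.absNorm : ℝ)) := by
      simp only [s, Complex.neg_re, Complex.div_ofReal_re, Complex.log_re]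
    rw [h1, lt_neg, div_lt_iff₀ hlog]
    have h2 := Real.log_lt_log hβpos hc
    rwa [Real.log_rpow (by linarith)] at h2
  obtain ⟨z, hz, hprod⟩ := hσ s hs
  have h1 := Converge.ne_zero_of_hasProd' hprod hz w
  apply h1
  have h2 : ((w.asIdeal.absNorm : ℂ)) ^ (-s) = β := by
    have h3 : (w.asIdeal.absNorm : ℂ) ≠ 0 := by
      have : (w.asIdeal.absNorm : ℝ) ≠ 0 := by linarith
      exact_mod_cast this
    rw [Complex.cpow_def_of_ne_zero h3]
    have h4 : Complex.log (w.asIdeal.absNorm : ℂ) = ((Real.log (w.asIdeal.absNorm : ℝ) : ℝ) : ℂ) := by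
      rw [← Complex.ofReal_natCast, Complex.ofReal_log (by linarith)]
    rw [h4]
    have h5 : ((Real.log (w.asIdeal.absNorm : ℝ) : ℝ) : ℂ) * -s = Complex.log β := by
      have h6 : ((Real.log (w.asIdeal.absNorm : ℝ) : ℝ) : ℂ) ≠ 0 := by
        exact_mod_cast hlog.ne'
      simp only [s, neg_neg]
      field_simp
    rw [h5, Complex.exp_log hβ0]
  rw [eulerFactor, h2, hβ, inv_zero]

/-- The Euler product is analytic in a right half plane. -/
theorem analytic (K : Type) [Field K] [NumberField K] (P : HeightOneSpectrum (𝓞 K) → ℚ[X]) (d : ℕ)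
    (hd : ∀ v, (P v).natDegree ≤ d ∧ (P v).coeff 0 = 1) (σ : ℝ)
    (hσ : ∀ s : ℂ, σ < s.re → ∃ z : ℂ, z ≠ 0 ∧ HasProd (eulerFactor K P s) z) :
    ∃ z : ℂ → ℂ, DifferentiableOn ℂ z {s : ℂ | σ + 2 < s.re} ∧
      ∀ s : ℂ, σ + 2 < s.re → z s ≠ 0 ∧ HasProd (eulerFactor K P s) (z s) := by
  let a : HeightOneSpectrum (𝓞 K) → ℂ → ℂ := fun v s =>
    aeval ((v.asIdeal.absNorm : ℂ) ^ (-s)) (P v) - 1
  have hroot := root_large K P (fun v => (hd v).2) σ hσ
  have hnorm : ∀ (v : HeightOneSpectrum (𝓞 K)) (s : ℂ),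
      ‖((v.asIdeal.absNorm : ℂ) ^ (-s))‖ = (v.asIdeal.absNorm : ℝ) ^ (-s.re) := by
    intro v s
    rw [Complex.norm_natCast_cpow_of_pos, Complex.neg_re]
    have := one_lt_absNorm v
    exact_mod_cast (by linarith : (0 : ℝ) < (v.asIdeal.absNorm : ℝ))
  have hsum := (Converge.summable_absNorm K (t := 2) (by norm_num)).mul_left (d * Real.exp d)
  have hbound : ∀ v, ∀ s ∈ {s : ℂ | σ + 2 < s.re}, ‖a v s‖ ≤
      (d * Real.exp d) * (v.asIdeal.absNorm : ℝ) ^ (-(2 : ℝ)) := by
    intro v s hs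
    rw [Set.mem_setOf_eq] at hs
    have hN := one_lt_absNorm v
    have hNpos : (0 : ℝ) < (v.asIdeal.absNorm : ℝ) := by linarith
    have h1 := Converge.eval_bound ((P v).map (algebraMap ℚ ℂ)) (by
        rw [coeff_map, (hd v).2, map_one]) (d := d)
      ((natDegree_map_le).trans (hd v).1) (ρ := (v.asIdeal.absNorm : ℝ) ^ (-σ))
      (by positivity) (by
        intro α hα
        apply hroot v α
        rwa [eval_map_algebraMap] at hα) ((v.asIdeal.absNorm : ℂ) ^ (-s))
    rw [eval_map_algebraMap, hnorm, ← Real.rpow_sub hNpos] at h1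
    have h0 : (v.asIdeal.absNorm : ℝ) ^ (-s.re - -σ) ≤ (v.asIdeal.absNorm : ℝ) ^ (-(2 : ℝ)) :=
      Real.rpow_le_rpow_of_exponent_le hN.le (by linarith)
    have hd0 : (0 : ℝ) ≤ d := Nat.cast_nonneg d
    have h1' := h1.trans (sub_le_sub_right (Real.exp_le_exp.2
      (mul_le_mul_of_nonneg_left h0 hd0)) 1)
    refine h1'.trans (Converge.exp_sub_one_le.trans ?_)
    have h3 : (v.asIdeal.absNorm : ℝ) ^ (-(2 : ℝ)) ≤ 1 :=
      Real.rpow_le_one_of_one_le_of_nonpos hN.le (by norm_num)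
    have h4 : Real.exp (d * (v.asIdeal.absNorm : ℝ) ^ (-(2 : ℝ))) ≤ Real.exp d := by
      apply Real.exp_le_exp.2
      nlinarith
    have h5 : (0 : ℝ) ≤ d * (v.asIdeal.absNorm : ℝ) ^ (-(2 : ℝ)) := by positivity
    calc (d * (v.asIdeal.absNorm : ℝ) ^ (-(2 : ℝ))) *
          Real.exp (d * (v.asIdeal.absNorm : ℝ) ^ (-(2 : ℝ)))
        ≤ (d * (v.asIdeal.absNorm : ℝ) ^ (-(2 : ℝ))) * Real.exp d :=
          mul_le_mul_of_nonneg_left h4 h5
      _ = (d * Real.exp d) * (v.asIdeal.absNorm : ℝ) ^ (-(2 : ℝ)) := by ring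
  have hopen : IsOpen {s : ℂ | σ + 2 < s.re} := isOpen_lt continuous_const Complex.continuous_re
  have hdiff : ∀ v, Differentiable ℂ (a v) := by
    intro v
    have hN : (v.asIdeal.absNorm : ℂ) ≠ 0 := by
      have : (v.asIdeal.absNorm : ℝ) ≠ 0 := by linarith [one_lt_absNorm v]
      exact_mod_cast this
    have h1 : Differentiable ℂ fun s : ℂ => (v.asIdeal.absNorm : ℂ) ^ (-s) := by
      intro s
      exact (differentiableAt_id.neg).const_cpow (Or.inl hN)
    have h2 : Differentiable ℂ fun x : ℂ => aeval x (P v) := by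
      exact Polynomial.differentiable_aeval _
    exact (h2.comp h1).sub_const 1
  have hprodu := hsum.hasProdLocallyUniformlyOn_one_add (f := a) hopen
    (Filter.Eventually.of_forall hbound) (fun v => (hdiff v).continuous.continuousOn)
  have hgd : DifferentiableOn ℂ (fun s => ∏' v, (1 + a v s)) {s : ℂ | σ + 2 < s.re} :=
    hprodu.differentiableOn (.of_forall fun S => by
      have : Differentiable ℂ (fun s => ∏ v ∈ S, (1 + a v s)) := by
        refine Differentiable.fun_finsetProd fun v _ => ?_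
        exact (hdiff v).const_add 1
      exact this.differentiableOn) hopen
  have hne : ∀ s : ℂ, σ + 2 < s.re → ∏' v, (1 + a v s) ≠ 0 := by
    intro s hs
    refine tprod_one_add_ne_zero_of_summable (f := fun v => a v s) (fun v h0 => ?_) ?_
    · have h1 : aeval ((v.asIdeal.absNorm : ℂ) ^ (-s)) (P v) = 0 := by
        simp only [a] at h0
        linear_combination h0
      have h2 := hroot v _ h1
      rw [hnorm] at h2
      have h3 := (Real.rpow_le_rpow_left_iff (one_lt_absNorm v)).1 h2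
      linarith
    · exact Summable.of_nonneg_of_le (fun _ => norm_nonneg _) (fun v => hbound v s hs) hsum
  refine ⟨fun s => (∏' v, (1 + a v s))⁻¹, ?_, fun s hs => ⟨inv_ne_zero (hne s hs), ?_⟩⟩
  · exact hgd.inv fun s hs => hne s hs
  · have h1 := (hprodu.hasProd (x := s) hs).inv₀ (hne s hs)
    have h2 : eulerFactor K P s = fun v => (1 + a v s)⁻¹ := by
      funext v
      simp only [eulerFactor, a, add_sub_cancel]
    rw [h2]
    exact h1

end Exact

end Pool.BK
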