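import Pool.Agent.Helper14.BKX.Defs
import Pool.Agent.Helper14.BKX.Euler
import Pool.Agent.Helper14.BKX.Chain
import Pool.Agent.BK.Bridge

/-!
The formula for a power of the L-function implies the formula for the L-function itself.
-/

open scoped Pointwise NumberField
open Polynomial IsDedekindDomain Filter Topology Metric

namespace Pool.BK

namespace Exact

/-- A function on a half plane whose `m`-th power continues meromorphically to a neighbourhood of
`[0, ∞)` with an order divisible by `m` at `0` continues meromorphically to a connected open set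
that contains the half plane and `0`. -/
theorem continue_root (m : ℕ) (hm : 0 < m) (σ : ℝ) (hσ : 0 < σ) (U : Set ℂ)
    (Λ : ℂ → ℂ) (hUr : ∀ t : ℝ, 0 ≤ t → (t : ℂ) ∈ U) (hmer : MeromorphicOn Λ U)
    (z : ℂ → ℂ) (hz : DifferentiableOn ℂ z {s : ℂ | σ < s.re})
    (hz0 : ∀ s : ℂ, σ < s.re → z s ≠ 0) (hzm : ∀ s : ℂ, σ < s.re → Λ s = z s ^ m) (d : ℤ)
    (hd : meromorphicOrderAt Λ 0 = (((m : ℤ) * d : ℤ) : WithTop ℤ)) :
    ∃ (W : Set ℂ) (g : ℂ → ℂ), IsOpen W ∧ IsConnected W ∧ {s : ℂ | σ < s.re} ⊆ W ∧ (0 : ℂ) ∈ W ∧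
      MeromorphicOn g W ∧ (∀ s : ℂ, σ < s.re → g s = z s) ∧
      meromorphicOrderAt g 0 = (d : WithTop ℤ) := by
  classical
  set H : Set ℂ := {s : ℂ | σ < s.re} with hHdef
  have hHo : IsOpen H := isOpen_lt continuous_const Complex.continuous_re
  have hHc : Convex ℝ H := convex_halfSpace_re_gt σ
  -- finite order along the half line
  let S : Set ℂ := (fun t : ℝ => (t : ℂ)) '' Set.Ici 0
  have hSc : IsPreconnected S :=
    isPreconnected_Ici.image _ Complex.continuous_ofReal.continuousOn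
  have hSU : S ⊆ U := by
    rintro _ ⟨t, ht, rfl⟩
    exact hUr t ht
  have hSm : MeromorphicOn Λ S := fun x hx => hmer x (hSU hx)
  have h0S : (0 : ℂ) ∈ S := ⟨0, by simp, by simp⟩
  have hfin0 : meromorphicOrderAt Λ 0 ≠ ⊤ := by rw [hd]; exact WithTop.coe_ne_top
  have hfin : ∀ x ∈ S, meromorphicOrderAt Λ x ≠ ⊤ := fun x hx =>
    hSm.meromorphicOrderAt_ne_top_of_isPreconnected hSc h0S hx hfin0
  have hgood : ∀ x ∈ S, ∃ r > 0, ∀ s ∈ ball x r, s ≠ x → DifferentiableAt ℂ Λ s ∧ Λ s ≠ 0 := by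
    intro x hx
    have h1 : ∀ᶠ s in 𝓝[≠] x, AnalyticAt ℂ Λ s := (hSm x hx).eventually_analyticAt
    have h2 : ∀ᶠ s in 𝓝[≠] x, Λ s ≠ 0 :=
      (meromorphicOrderAt_ne_top_iff_eventually_ne_zero (hSm x hx)).1 (hfin x hx)
    have h3 := h1.and h2
    rw [eventually_nhdsWithin_iff, Metric.eventually_nhds_iff_ball] at h3
    obtain ⟨r, hr, h4⟩ := h3
    exact ⟨r, hr, fun s hs hne => ⟨(h4 s hs hne).1.differentiableAt, (h4 s hs hne).2⟩⟩
  choose! r hr hr' using hgood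
  -- compactness
  let C : Set ℂ := (fun t : ℝ => (t : ℂ)) '' Set.Icc 0 (σ + 1)
  have hCS : C ⊆ S := Set.image_mono Set.Icc_subset_Ici_self
  have hCc : IsCompact C := isCompact_Icc.image Complex.continuous_ofReal
  obtain ⟨δ, hδ, hleb⟩ := lebesgue_number_lemma_of_metric (c := fun x : C => ball (x : ℂ) (r x))
    hCc (fun x => isOpen_ball) (fun x hx => Set.mem_iUnion.2 ⟨⟨x, hx⟩, mem_ball_self (hr x (hCS hx))⟩)
  -- the good set
  let R : Set ℂ := {s : ℂ | 0 < s.re} ∩ {s : ℂ | s.re < σ + 1} ∩ {s : ℂ | 0 < s.im} ∩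
    {s : ℂ | s.im < δ}
  have hRc : Convex ℝ R := (((convex_halfSpace_re_gt 0).inter (convex_halfSpace_re_lt _)).inter
    (convex_halfSpace_im_gt 0)).inter (convex_halfSpace_im_lt δ)
  have hRo : IsOpen R := (((isOpen_lt continuous_const Complex.continuous_re).inter
    (isOpen_lt Complex.continuous_re continuous_const)).inter
    (isOpen_lt continuous_const Complex.continuous_im)).inter
    (isOpen_lt Complex.continuous_im continuous_const)
  have hRgood : ∀ s ∈ R, DifferentiableAt ℂ Λ s ∧ Λ s ≠ 0 := by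
    rintro s ⟨⟨⟨h1, h2⟩, h3⟩, h4⟩
    rw [Set.mem_ofPred_eq] at h1 h2 h3 h4
    have hx : ((s.re : ℝ) : ℂ) ∈ C := ⟨s.re, ⟨h1.le, h2.le⟩, rfl⟩
    obtain ⟨⟨y, hy⟩, hsub⟩ := hleb _ hx
    have hs : s ∈ ball ((s.re : ℝ) : ℂ) δ := by
      rw [mem_ball, dist_eq_norm]
      have h5 : s - ((s.re : ℝ) : ℂ) = ((s.im : ℝ) : ℂ) * Complex.I := by
        apply Complex.ext <;> simp
      rw [h5, norm_mul, Complex.norm_I, mul_one, Complex.norm_real, Real.norm_eq_abs,
        abs_of_pos h3]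
      exact h4
    refine hr' y (hCS hy) s (hsub hs) ?_
    rintro rfl
    obtain ⟨t, -, ht⟩ := hy
    simp only at ht
    rw [← ht, Complex.ofReal_im] at h3
    exact lt_irrefl _ h3
  set r0 : ℝ := r 0 with hr0def
  have hr0 : 0 < r0 := hr 0 h0S
  have hBgood : ∀ s ∈ ball (0 : ℂ) r0, s ≠ 0 → DifferentiableAt ℂ Λ s ∧ Λ s ≠ 0 := hr' 0 h0S
  let G : Set ℂ := (H ∪ R) ∪ ball 0 r0
  have hGo : IsOpen G := (hHo.union hRo).union isOpen_ball
  have hGc : IsPreconnected G := by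
    have h1 : IsPreconnected (H ∪ R) := by
      refine IsPreconnected.union (⟨σ + 1 / 2, δ / 2⟩ : ℂ) ?_ ?_ hHc.isPreconnected
        hRc.isPreconnected
      · change σ < σ + 1 / 2
        linarith
      · refine ⟨⟨⟨?_, ?_⟩, ?_⟩, ?_⟩
        · change 0 < σ + 1 / 2
          linarith
        · change σ + 1 / 2 < σ + 1
          linarith
        · change 0 < δ / 2
          linarith
        · change δ / 2 < δ
          linarith
    obtain ⟨ρ, hρ0, hρ1, hρ2, hρ3⟩ : ∃ ρ : ℝ, 0 < ρ ∧ ρ < σ + 1 ∧ ρ < δ ∧ ρ + ρ < r0 := by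
      refine ⟨min (min (σ / 2) (δ / 2)) (r0 / 4), ?_, ?_, ?_, ?_⟩
      · exact lt_min (lt_min (by linarith) (by linarith)) (by linarith)
      · have := (min_le_left (min (σ / 2) (δ / 2)) (r0 / 4)).trans (min_le_left _ _)
        linarith
      · have := (min_le_left (min (σ / 2) (δ / 2)) (r0 / 4)).trans (min_le_right _ _)
        linarith
      · have := min_le_right (min (σ / 2) (δ / 2)) (r0 / 4)
        linarith
    refine IsPreconnected.union (⟨ρ, ρ⟩ : ℂ) (Or.inr ⟨⟨⟨?_, ?_⟩, ?_⟩, ?_⟩) ?_ h1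
      (convex_ball 0 r0).isPreconnected
    · exact hρ0
    · exact hρ1
    · exact hρ0
    · exact hρ2
    · rw [mem_ball_zero_iff]
      refine (Complex.norm_le_abs_re_add_abs_im _).trans_lt ?_
      change |ρ| + |ρ| < r0
      rw [abs_of_pos hρ0]
      exact hρ3
  -- removing the zero at the origin
  have h0mer : MeromorphicAt Λ 0 := hSm 0 h0S
  obtain ⟨h, hh1, hh2, hh3⟩ := (meromorphicOrderAt_eq_int_iff h0mer).1 hd
  let Λ₁ : ℂ → ℂ := fun s => if s = 0 then h 0 else s ^ (-((m : ℤ) * d)) * Λ s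
  have hΛ₁ne : ∀ s : ℂ, s ≠ 0 → Λ₁ s = s ^ (-((m : ℤ) * d)) * Λ s := fun s hs => if_neg hs
  have hΛ₁0 : Λ₁ 0 = h 0 := if_pos rfl
  have h0H : (0 : ℂ) ∉ H := by
    rw [hHdef, Set.mem_ofPred_eq, Complex.zero_re]
    exact not_lt.2 hσ.le
  have hHgood : ∀ s ∈ H, DifferentiableAt ℂ Λ s ∧ Λ s ≠ 0 := by
    intro s hs
    constructor
    · have h1 : DifferentiableAt ℂ (fun s => z s ^ m) s :=
        (hz.differentiableAt (hHo.mem_nhds hs)).pow m
      refine h1.congr_of_eventuallyEq ?_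
      filter_upwards [hHo.mem_nhds hs] with y hy using hzm y hy
    · rw [hzm s hs]
      exact pow_ne_zero m (hz0 s hs)
  have hGgood : ∀ s ∈ G, s ≠ 0 → DifferentiableAt ℂ Λ s ∧ Λ s ≠ 0 := by
    rintro s ((hs | hs) | hs) hne
    · exact hHgood s hs
    · exact hRgood s hs
    · exact hBgood s hs hne
  have hΛ₁d : DifferentiableOn ℂ Λ₁ G := by
    intro s hs
    by_cases hne : s = 0
    · subst hne
      refine (hh1.differentiableAt.congr_of_eventuallyEq ?_).differentiableWithinAt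
      rw [eventually_nhdsWithin_iff] at hh3
      filter_upwards [hh3] with y hy
      by_cases hy0 : y = 0
      · rw [hy0, hΛ₁0]
      · rw [hΛ₁ne y hy0, hy hy0, sub_zero, smul_eq_mul, ← mul_assoc, ← zpow_add₀ hy0,
          neg_add_cancel, zpow_zero, one_mul]
    · have h1 : DifferentiableAt ℂ (fun y : ℂ => y ^ (-((m : ℤ) * d)) * Λ y) s :=
        (differentiableAt_zpow.2 (Or.inl hne)).mul (hGgood s hs hne).1
      refine (h1.congr_of_eventuallyEq ?_).differentiableWithinAt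
      filter_upwards [isOpen_ne.mem_nhds hne] with y hy using hΛ₁ne y hy
  have hΛ₁0' : ∀ s ∈ G, Λ₁ s ≠ 0 := by
    intro s hs
    by_cases hne : s = 0
    · rw [hne, hΛ₁0]
      exact hh2
    · rw [hΛ₁ne s hne]
      exact mul_ne_zero (zpow_ne_zero _ hne) (hGgood s hs hne).2
  have hz₁d : DifferentiableOn ℂ (fun s : ℂ => s ^ (-d) * z s) H := by
    intro s hs
    have hne : s ≠ 0 := fun h => h0H (h ▸ hs)
    exact ((differentiableAt_zpow.2 (Or.inl hne)).mul
      (hz.differentiableAt (hHo.mem_nhds hs))).differentiableWithinAt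
  have hz₁m : ∀ s ∈ H, (s ^ (-d) * z s) ^ m = Λ₁ s := by
    intro s hs
    have hne : s ≠ 0 := fun h => h0H (h ▸ hs)
    rw [hΛ₁ne s hne, hzm s hs, mul_pow, ← zpow_natCast (s ^ (-d)) m, ← zpow_mul]
    congr 2
    ring
  obtain ⟨W, g, hWo, hWc, hHW, hWG, h0W, hgd, hgm, hgz⟩ := exists_root_domain m hm hGo hGc hHo hHc
    ⟨((σ + 1 : ℝ) : ℂ), by rw [hHdef, Set.mem_ofPred_eq, Complex.ofReal_re]; linarith⟩
    (Set.subset_union_left.trans Set.subset_union_left) Λ₁ hΛ₁d hΛ₁0'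
    (fun s : ℂ => s ^ (-d) * z s) hz₁d hz₁m 0 (Or.inr (mem_ball_self hr0))
  have hg0 : g 0 ≠ 0 := by
    intro h
    have h1 := hgm 0 h0W
    rw [h, zero_pow hm.ne'] at h1
    exact hΛ₁0' 0 (hWG h0W) h1.symm
  have hga : ∀ s ∈ W, AnalyticAt ℂ g s := fun s hs => hgd.analyticAt (hWo.mem_nhds hs)
  have hid : ∀ s : ℂ, MeromorphicAt (fun y : ℂ => y) s := fun s => analyticAt_id.meromorphicAt
  refine ⟨W, (fun y : ℂ => y) ^ d * g, hWo, ⟨⟨0, h0W⟩, hWc⟩, hHW, h0W, ?_, ?_, ?_⟩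
  · intro s hs
    exact ((hid s).zpow d).mul (hga s hs).meromorphicAt
  · intro s hs
    have hne : s ≠ 0 := fun h => h0H (h ▸ hs)
    rw [Pi.mul_apply, Pi.pow_apply, hgz s hs, ← mul_assoc, ← zpow_add₀ hne, add_neg_cancel,
      zpow_zero, one_mul]
  · rw [meromorphicOrderAt_mul ((hid 0).zpow d) (hga 0 h0W).meromorphicAt,
      meromorphicOrderAt_zpow (hid 0)]
    have h1 : meromorphicOrderAt (fun y : ℂ => y) 0 = 1 := by
      rw [show (1 : WithTop ℤ) = ((1 : ℤ) : WithTop ℤ) from rfl,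
        meromorphicOrderAt_eq_int_iff (hid 0)]
      exact ⟨fun _ => 1, analyticAt_const, one_ne_zero, Eventually.of_forall fun y => by simp⟩
    have h2 : meromorphicOrderAt g 0 = 0 := by
      rw [show (0 : WithTop ℤ) = ((0 : ℤ) : WithTop ℤ) from rfl,
        meromorphicOrderAt_eq_int_iff (hga 0 h0W).meromorphicAt]
      exact ⟨g, hga 0 h0W, hg0, Eventually.of_forall fun y => by simp⟩
    rw [h1, h2, mul_one, add_zero]

end Exact

/-- The formula for a power of the L-function implies the formula for the L-function itself. -/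
theorem exact_of_formula (L Ω : Type) [Field L] [NumberField L] [Field Ω] [Algebra L Ω]
    [IsAlgClosed Ω] [Algebra.IsAlgebraic L Ω] (V : LSystem (Ω ≃ₐ[L] Ω))
    (B : ∀ (p : ℕ) [Fact p.Prime], PeriodData (Ω ≃ₐ[L] Ω) (𝓞 Ω) p) (m : ℕ) (hm : 0 < m)
    (h : Formula L Ω V B m) : ExactFormula L Ω V B := by
  obtain ⟨P, hP, σ, U, Λ, hUo, hUσ, hUr, hmer, hprod, hp⟩ := h
  obtain ⟨d₀, hd₀⟩ := natDegree_le (V := V) (P := P) (hP := (eulerFamily_iff L Ω V P).1 hP)
  obtain ⟨z, hz, hz'⟩ := Exact.analytic L P d₀ hd₀ σ (fun s hs => by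
    obtain ⟨z, h1, h2, -⟩ := hprod s hs
    exact ⟨z, h1, h2⟩)
  have hsub : ∀ s : ℂ, max (σ + 2) 1 < s.re → σ + 2 < s.re := fun s hs =>
    (le_max_left _ _).trans_lt hs
  have hzm : ∀ s : ℂ, max (σ + 2) 1 < s.re → Λ s = z s ^ m := by
    intro s hs
    obtain ⟨w, -, h2, h3⟩ := hprod s (by linarith [hsub s hs])
    rw [h3, h2.unique (hz' s (hsub s hs)).2]
  obtain ⟨d, -, hd⟩ := @hp 2 ⟨Nat.prime_two⟩
  obtain ⟨W, g, hWo, hWc, hHW, h0W, hgm, hgz, hgd⟩ := Exact.continue_root m hm (max (σ + 2) 1)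
    (lt_of_lt_of_le one_pos (le_max_right _ _)) U Λ hUr hmer z
    (hz.mono fun s hs => hsub s hs) (fun s hs => (hz' s (hsub s hs)).1) hzm d hd
  refine ⟨P, hP, max (σ + 2) 1, W, g, hWo, hWc, hHW, h0W, hgm, fun s hs => ?_, fun p _ => ?_⟩
  · rw [hgz s hs]
    exact hz' s (hsub s hs)
  · obtain ⟨d', hd'1, hd'2⟩ := hp p
    refine ⟨d', hd'1, ?_⟩
    rw [hgd]
    rw [hd] at hd'2
    have h1 : (m : ℤ) * d = (m : ℤ) * d' := by exact_mod_cast hd'2
    have h2 : d = d' := mul_left_cancel₀ (by exact_mod_cast hm.ne') h1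
    rw [h2]

end Pool.BK
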